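import Mathlib

set_option autoImplicit false

namespace Pool.Agent.Results.MP_22eee4_an.RealChi

/-- The greedy sequence: `chi 1 = 1` and `chi i = max_{1 ≤ j ≤ i-1} (j+1)(i - chi j)` for `i > 1`
(the value at index `0` is a dummy and is never used). -/
def chi : ℕ → ℤ
  | 0 => 1
  | 1 => 1
  | (i + 2) => (Finset.univ : Finset (Fin (i + 1))).sup' ⟨0, Finset.mem_univ _⟩
      (fun j => (((j : ℕ) + 1 : ℕ) + 1 : ℤ) * (((i + 2 : ℕ) : ℤ) - chi (j + 1)))
decreasing_by have := j.2; omega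

/-- The chi inequality `(j+1) a_j + a_i ≥ (j+1) i` for all `i, j ≥ 1`. -/
def ChiIneq (a : ℕ → ℝ) : Prop :=
  ∀ i j : ℕ, 1 ≤ i → 1 ≤ j → ((j : ℝ) + 1) * i ≤ ((j : ℝ) + 1) * a j + a i

theorem chi_one : chi 1 = 1 := by rw [chi]

theorem le_chi {i j : ℕ} (hj : 1 ≤ j) (hji : j < i) : ((j : ℤ) + 1) * (i - chi j) ≤ chi i := by
  obtain ⟨i, rfl⟩ : ∃ k, i = k + 2 := ⟨i - 2, by omega⟩
  obtain ⟨j, rfl⟩ : ∃ k, j = k + 1 := ⟨j - 1, by omega⟩
  rw [chi]
  exact Finset.le_sup' (fun j : Fin (i + 1) =>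
    (((j : ℕ) + 1 : ℕ) + 1 : ℤ) * (((i + 2 : ℕ) : ℤ) - chi (j + 1)))
    (Finset.mem_univ (⟨j, by omega⟩ : Fin (i + 1)))

theorem chi_le {i : ℕ} (hi : 2 ≤ i) {c : ℤ}
    (h : ∀ j : ℕ, 1 ≤ j → j < i → ((j : ℤ) + 1) * (i - chi j) ≤ c) : chi i ≤ c := by
  obtain ⟨i, rfl⟩ : ∃ k, i = k + 2 := ⟨i - 2, by omega⟩
  rw [chi]
  exact Finset.sup'_le _ _ fun j _ => h (j + 1) (by omega) (by have := j.2; omega)

theorem self_le_chi {i : ℕ} (hi : 1 ≤ i) : (i : ℤ) ≤ chi i := by
  rcases Nat.eq_or_lt_of_le hi with rfl | h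
  · simp [chi_one]
  · have := le_chi (i := i) (j := 1) le_rfl h
    rw [chi_one] at this
    push_cast at this
    omega

theorem chi_two : chi 2 = 2 := by
  refine le_antisymm (chi_le le_rfl fun j h1 h2 => ?_) (self_le_chi (i := 2) (by norm_num))
  obtain rfl : j = 1 := by omega
  simp [chi_one]

theorem chi_three : chi 3 = 4 := by
  refine le_antisymm (chi_le (by norm_num) fun j h1 h2 => ?_) ?_
  · interval_cases j <;> simp [chi_one, chi_two]
  · have := le_chi (i := 3) (j := 1) le_rfl (by norm_num)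
    rw [chi_one] at this
    simpa using this

theorem chi_four : chi 4 = 6 := by
  refine le_antisymm (chi_le (by norm_num) fun j h1 h2 => ?_) ?_
  · interval_cases j <;> simp [chi_one, chi_two, chi_three]
  · have := le_chi (i := 4) (j := 1) le_rfl (by norm_num)
    rw [chi_one] at this
    simpa using this

theorem chi_le_sq {i : ℕ} (hi : 1 ≤ i) : chi i ≤ (i : ℤ) ^ 2 := by
  rcases Nat.eq_or_lt_of_le hi with rfl | h
  · simp [chi_one]
  · refine chi_le h fun j h1 h2 => ?_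
    have h3 := self_le_chi h1
    have h4 : (j : ℤ) + 1 ≤ i := by exact_mod_cast h2
    have h5 : (0 : ℤ) ≤ j := by positivity
    nlinarith

theorem cube_le {i : ℕ} (hi : 2 ≤ i) : (i : ℝ) ^ 3 ≤ 8 * (chi i : ℝ) ^ 2 := by
  set j := Nat.sqrt (i / 2) with hj
  have h1 : j * j ≤ i / 2 := Nat.sqrt_le _
  have h2 : i / 2 < (j + 1) * (j + 1) := Nat.lt_succ_sqrt _
  have hj1 : 1 ≤ j := by
    rw [hj, Nat.le_sqrt]; omega
  have hji : j < i := by nlinarith [Nat.div_mul_le_self i 2]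
  have h3 := le_chi hj1 hji
  have h4 := chi_le_sq hj1
  have h5 : 2 * (j * j) ≤ i := by omega
  have h6 : i ≤ 2 * ((j + 1) * (j + 1)) := by omega
  have h3' : ((j : ℝ) + 1) * (i - chi j) ≤ chi i := by exact_mod_cast h3
  have h4' : (chi j : ℝ) ≤ (j : ℝ) ^ 2 := by exact_mod_cast h4
  have h5' : 2 * ((j : ℝ) * j) ≤ i := by exact_mod_cast h5
  have h6' : (i : ℝ) ≤ 2 * (((j : ℝ) + 1) * (j + 1)) := by exact_mod_cast h6
  have hj0 : (0 : ℝ) ≤ j := by positivity
  have hi0 : (0 : ℝ) ≤ i := by positivity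
  have h7 : ((j : ℝ) + 1) * (i / 2) ≤ chi i := by nlinarith
  have h8 : (((j : ℝ) + 1) * (i / 2)) ^ 2 ≤ (chi i : ℝ) ^ 2 :=
    pow_le_pow_left₀ (by positivity) h7 2
  nlinarith [mul_le_mul_of_nonneg_right h6' (sq_nonneg (i : ℝ))]

theorem summable_chi : Summable fun k : ℕ => 1 / (chi (k + 1) : ℝ) := by
  have h0 : Summable fun k : ℕ => 3 * (((k : ℝ)) ^ (3 / 2 : ℝ))⁻¹ :=
    (Real.summable_nat_rpow_inv.2 (by norm_num)).mul_left 3
  rw [← summable_nat_add_iff 2] at h0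
  rw [← summable_nat_add_iff 1]
  refine Summable.of_nonneg_of_le (fun k => ?_) (fun k => ?_) h0
  · have : ((k + 1 + 1 : ℕ) : ℤ) ≤ chi (k + 1 + 1) := self_le_chi (by omega)
    have h : (0 : ℝ) ≤ chi (k + 1 + 1) := by exact_mod_cast le_trans (by positivity) this
    positivity
  · have h1 : ((k + 2 : ℕ) : ℤ) ≤ chi (k + 2) := self_le_chi (by omega)
    have h2 : (0 : ℝ) < chi (k + 2) := by exact_mod_cast lt_of_lt_of_le (by positivity) h1
    have h3 := cube_le (i := k + 2) (by omega)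
    have hx : (0 : ℝ) < ((k + 2 : ℕ) : ℝ) := by positivity
    have h4 : (((k + 2 : ℕ) : ℝ) ^ (3 / 2 : ℝ)) ^ 2 = ((k + 2 : ℕ) : ℝ) ^ 3 := by
      rw [← Real.rpow_natCast, ← Real.rpow_mul hx.le, ← Real.rpow_natCast]; norm_num
    have h5 : (0 : ℝ) < ((k + 2 : ℕ) : ℝ) ^ (3 / 2 : ℝ) := Real.rpow_pos_of_pos hx _
    have h6 : ((k + 2 : ℕ) : ℝ) ^ (3 / 2 : ℝ) ≤ 3 * chi (k + 2) := by
      refine (pow_le_pow_iff_left₀ h5.le (by positivity) two_ne_zero).1 ?_
      rw [h4]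
      nlinarith [sq_nonneg (chi (k + 2) : ℝ)]
    change 1 / (chi (k + 2) : ℝ) ≤ _
    rw [← div_eq_mul_inv, div_le_div_iff₀ h2 h5]
    linarith

/-- the counterexample -/
noncomputable def a : ℕ → ℝ := fun k =>
  if k = 1 then 2 / 3 else if k = 2 then 8 / 3 else if k = 3 then 14 / 3 else
    if k = 4 then 20 / 3 else chi k

theorem chi_le_a {k : ℕ} (hk : 2 ≤ k) : (chi k : ℝ) ≤ a k := by
  unfold a
  split_ifs with h1 h2 h3 h4
  · omega
  · subst h2; rw [chi_two]; norm_num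
  · subst h3; rw [chi_three]; norm_num
  · subst h4; rw [chi_four]; norm_num
  · exact le_rfl

theorem a_ge {k : ℕ} (hk : 1 ≤ k) : 2 * (k : ℝ) - 4 / 3 ≤ a k := by
  unfold a
  split_ifs with h1 h2 h3 h4
  · subst h1; norm_num
  · subst h2; norm_num
  · subst h3; norm_num
  · subst h4; norm_num
  · have h5 : 5 ≤ k := by omega
    have := le_chi (i := k) (j := 2) (by norm_num) (by omega)
    rw [chi_two] at this
    have h6 : ((2 : ℝ) + 1) * (k - 2) ≤ chi k := by exact_mod_cast this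
    have h7 : (5 : ℝ) ≤ k := by exact_mod_cast h5
    linarith

theorem result : ∃ a : ℕ → ℝ, ChiIneq a ∧ Summable (fun k : ℕ => 1 / a (k + 1)) ∧
    Summable (fun k : ℕ => 1 / (chi (k + 1) : ℝ)) ∧
    ∑' k : ℕ, 1 / (chi (k + 1) : ℝ) < ∑' k : ℕ, 1 / a (k + 1) := by
  have ht : ∀ k : ℕ, a (k + 4 + 1) = chi (k + 4 + 1) := fun k => by
    unfold a
    rw [if_neg (by omega), if_neg (by omega), if_neg (by omega), if_neg (by omega)]
  have hs : Summable (fun k : ℕ => 1 / a (k + 1)) := by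
    rw [← summable_nat_add_iff 4]
    simp only [ht]
    exact (summable_nat_add_iff 4).2 summable_chi
  refine ⟨a, fun i j hi hj => ?_, hs, summable_chi, ?_⟩
  · rcases Nat.eq_or_lt_of_le hj with rfl | hj2
    · have := a_ge hi
      have h1 : a 1 = 2 / 3 := by simp [a]
      rw [h1]; push_cast; linarith
    · have hj0 : (0 : ℝ) ≤ j := by positivity
      have h1 := chi_le_a hj2
      rcases lt_or_ge j i with hji | hji
      · have h2 := chi_le_a (k := i) (by omega)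
        have h3 : ((j : ℝ) + 1) * (i - chi j) ≤ chi i := by exact_mod_cast le_chi hj hji
        nlinarith
      · have h2 : (j : ℝ) ≤ chi j := by exact_mod_cast self_le_chi hj
        have h3 : (i : ℝ) ≤ j := by exact_mod_cast hji
        have h4 := a_ge hi
        have h5 : (1 : ℝ) ≤ i := by exact_mod_cast hi
        nlinarith
  · rw [← hs.sum_add_tsum_nat_add 4, ← summable_chi.sum_add_tsum_nat_add 4]
    simp only [ht]
    refine add_lt_add_left ?_ _
    simp [Finset.sum_range_succ, a, chi_one, chi_two, chi_three, chi_four]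
    norm_num

end Pool.Agent.Results.MP_22eee4_an.RealChi
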